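import Mathlib
import Pool.Agent.H54.Ftm2

namespace Pool.Agent.Results.MP_0deb22_lc.Sublinear

/-- the integer represented by a word, most significant digit first; the last digit has weight `F_2` -/
def val : List Bool → ℕ
  | [] => 0
  | b :: x => (if b then Nat.fib (x.length + 2) else 0) + val x

/-- valid Fibonacci representations (leading zeros allowed): no two consecutive ones -/
def Valid (x : List Bool) : Prop := x.IsChain (fun a b => ¬ (a = true ∧ b = true))

/-- the Fibonacci-Thue-Morse sequence: number of ones of the Zeckendorf representation, mod 2 -/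
def ftm (i : ℕ) : ZMod 2 := ((Nat.zeckendorf i).length : ℕ)

/-- an automaton with output on state set `Q`; transitions may be undefined -/
structure DFAO (Q : Type) where
  δ : Q → Bool → Option Q
  q₀ : Q
  τ : Q → ZMod 2

def DFAO.run {Q : Type} (M : DFAO Q) : Q → List Bool → Option Q
  | q, [] => some q
  | q, a :: x => (M.δ q a).bind (fun q' => M.run q' x)

/-- `M` generates `h`: on every valid representation of `i` the run is defined and outputs `h i` -/
def DFAO.Generates {Q : Type} (M : DFAO Q) (h : ℕ → ZMod 2) : Prop :=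
  ∀ x, Valid x → (M.run M.q₀ x).map M.τ = some (h (val x))

open Pool.Agent.H54.Ftm

lemma val_eq (x : List Bool) : val x = vr x.reverse 2 := by
  induction x with
  | nil => rfl
  | cons b x ih => simp [val, ih, vr_app, vr, add_comm]

lemma build (k : ℕ) (T : Finset (List Bool → Option (ZMod 2))) (hT : ∀ z, ok z → res k z ∈ T) :
    ∃ M : DFAO T, M.Generates (fun i => ftm (i + Nat.fib k)) := by
  classical
  let M : DFAO T := ⟨fun q a => if h : (fun y => q.1 (a :: y)) ∈ T then some ⟨_, h⟩ else none,
    ⟨res k [], hT [] (by decide)⟩, fun q => (q.1 []).getD 0⟩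
  have key : ∀ (x z : List Bool) (hz : ok z) (h : ok (x.reverse ++ z)),
      M.run ⟨res k z, hT z hz⟩ x = some ⟨res k (x.reverse ++ z), hT _ h⟩ := by
    intro x
    induction x with
    | nil => intro z hz h; rfl
    | cons a x ih =>
      intro z hz h
      have h1 : ok (x.reverse ++ a :: z) := by simpa using h
      have e : (fun y => res k z (a :: y)) = res k (a :: z) := by funext y; simp [res]
      have h2 : (fun y => res k z (a :: y)) ∈ T := e ▸ hT _ (ok_r h1)
      have e2 : M.δ ⟨res k z, hT z hz⟩ a = some ⟨res k (a :: z), hT _ (ok_r h1)⟩ := by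
        simp only [M]; rw [dif_pos h2]; exact congrArg some (Subtype.ext e)
      rw [DFAO.run, e2, Option.bind_some, ih _ (ok_r h1) h1]; simp
  refine ⟨M, fun x hx => ?_⟩
  have h : ok x.reverse := (ok_rev x).2 hx
  have := key x [] (by decide) (by simpa using h)
  rw [show M.q₀ = ⟨res k [], hT [] (by decide)⟩ from rfl, this, val_eq]
  simp [M, res, h, t, ftm]

theorem result : ∀ ε : ℝ, 0 < ε → ∀ c₀ : ℕ, ∃ c : ℕ, c₀ ≤ c ∧
    ∃ (Q : Type) (_ : Fintype Q) (M : DFAO Q),
      M.Generates (fun i => ftm (i + c)) ∧ (Fintype.card Q : ℝ) ≤ ε * c := by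
  intro ε hε c₀
  have h1 : Filter.Tendsto (fun n : ℕ => ((1363 : ℝ) / 1364) ^ n) Filter.atTop (nhds 0) :=
    tendsto_pow_atTop_nhds_zero_of_lt_one (by norm_num) (by norm_num)
  obtain ⟨n, hn1, hn2⟩ := ((h1.eventually (gt_mem_nhds (show 0 < ε / (16 * 1363) by positivity))).and
    (Filter.eventually_ge_atTop c₀)).exists
  obtain ⟨T, hc, hT⟩ := states (n + 1) (by omega)
  obtain ⟨M, hM⟩ := build _ T hT
  have h2 := fib_lb n
  refine ⟨Nat.fib (15 * (n + 1)), ?_, T, inferInstance, M, hM, ?_⟩
  · exact le_trans (by omega) (Nat.le_fib_self (by omega))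
  · rw [Fintype.card_coe]
    have h3 : (T.card : ℝ) ≤ 16 * 1363 ^ (n + 1) := by exact_mod_cast hc
    have h4 : (1364 : ℝ) ^ n ≤ Nat.fib (15 * (n + 1)) := by exact_mod_cast h2
    rw [div_pow, div_lt_div_iff₀ (by positivity) (by positivity)] at hn1
    rw [pow_succ] at h3
    nlinarith

end Pool.Agent.Results.MP_0deb22_lc.Sublinear
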